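import Mathlib
import Pool.Agent.MWLQ.StmtsB

/-!
# Row mwlq TCR: crossing of the tails (twin of Helper23_MWLE/TCR.lean)
-/

set_option autoImplicit false

namespace Pool.Agent.MWLQ.H95

open Pool.Agent.Helper14_MV
open Pool.Agent.Helper2_MV (RR)
open Pool.Agent.MWK (pre)
open Pool.Agent.MWF (gaml)
open Pool.Agent.MWGN (nn Tau gh)
open Pool.Agent.MWGQ (pw Z Gn E0 A0 P0)
open Pool.Agent.MWLE (pin sep con tl tll Sg t1 Fc Fb Fy Fx Fu Fz rz sf k0)
open Pool.Agent.MWLQ

theorem tl_append (a b : List ℕ) : tl (a ++ b) = tl a ++ tl b := by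
  unfold tl
  exact List.flatMap_append ..

theorem tcr (twc : TwcStmt) (blk : BlkStmt) : TcrStmt := by
  intro n hn σ τ m hS d g f p q W hW hF j j' k k' hj hj' hk hk' hjj hkk hin hcon
  obtain ⟨b1, -⟩ := blk n hn σ τ m hS d g f p q W hW hF
  obtain ⟨-, -, t3, -⟩ := twc n hn σ τ m hS d g
  have hjσ : j ∈ σ := (hS.me j).2 hj
  obtain ⟨σ2, hσ⟩ := Pool.Agent.MWK.mem_split hjσ
  obtain ⟨Z1, hZ1⟩ : ∃ Z1, Z1 = p ++ ((wb n m d g).flatMap f ++
      ((tl (pre σ j)).flatMap f ++ f (sep j))) := ⟨_, rfl⟩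
  obtain ⟨Z2, hZ2⟩ : ∃ Z2, Z2 = (tl σ2).flatMap f ++ q := ⟨_, rfl⟩
  have hW2 : W = Z1 ++ (f (pin j) ++ Z2) := by
    have e : tl σ = tl (pre σ j) ++ (sep j :: pin j :: tl σ2) := by
      conv_lhs => rw [hσ]
      rw [tl_append]
      rfl
    rw [hW, hZ1, hZ2]
    unfold wd
    rw [e, List.flatMap_append, List.flatMap_append, List.flatMap_cons, List.flatMap_cons]
    simp only [List.append_assoc]
  have hpin : pin k' ∈ Z1 := by
    rw [hZ1]
    exact List.mem_append_right _ (List.mem_append_left _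
      (List.mem_flatMap.2 ⟨pin j, t3 j hj, hin⟩))
  have hsep : sep k' ∈ Z1 := by
    by_contra hns
    have h1 : sep k' ∉ f (pin j) := b1 (pin j) (t3 j hj) k' hk'
    have h2 : sep k' ∉ Z1 ++ f (pin j) := by
      rw [List.mem_append]
      exact fun h => h.elim hns h1
    have h3 := hF.ps k' hk'
    unfold nn at h3
    rw [hW2, ← List.append_assoc, Pool.Agent.MWK.pre_append h2, List.count_append,
      List.count_append] at h3
    have c1 : 0 < Z1.count (pin k') := List.count_pos_iff.2 hpin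
    have c2 : 0 < (f (pin j)).count (pin k') := List.count_pos_iff.2 hin
    omega
  have hmem : pin k ∈ f (pin j) ++ Z2 := by
    rcases hjj with h | h
    · rw [h]
      exact List.mem_append_left _ hcon
    · have h1 : j' ∉ pre σ j := Pool.Agent.MWK.pre_asymm h
      have h2 : j' ≠ j := by
        rintro rfl
        exact Pool.Agent.MWK.not_mem_pre σ j' h
      have h3 : j' ∈ pre σ j ++ j :: σ2 := by
        rw [← hσ]
        exact (hS.me j').2 hj'
      have h4 : j' ∈ σ2 := by
        rcases List.mem_append.1 h3 with h5 | h5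
        · exact absurd h5 h1
        · rcases List.mem_cons.1 h5 with h6 | h6
          · exact absurd h6 h2
          · exact h6
      rw [hZ2]
      refine List.mem_append_right _ (List.mem_append_left _ (List.mem_flatMap.2 ⟨pin j', ?_, hcon⟩))
      unfold tl
      exact List.mem_flatMap.2 ⟨j', h4, by simp⟩
  have h5 := hF.pa k k' hk hk' hkk
  unfold nn at h5
  have c1 : 0 < (f (pin j) ++ Z2).count (pin k) := List.count_pos_iff.2 hmem
  rw [hW2, Pool.Agent.MWK.pre_append_mem hsep, List.count_append] at h5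
  have c2 := Pool.Agent.MWK.count_pre_le Z1 (pin k) (sep k')
  omega

end Pool.Agent.MWLQ.H95
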